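import Pool.Agent.TH869.EVF.Tor
import Pool.Agent.TH894.NF1

/-! # The torsion of the class group from a positive proportion of primes which are norms -/

set_option autoImplicit false

namespace Pool.Agent.N842.TU

open Finset NumberField Filter
open Pool.Agent.TH894.NF (pr)

lemma pi_lower (ε : ℝ) (hε : 0 < ε) : ∃ C : ℝ, 1 ≤ C ∧ ∀ Y : ℝ, 1 ≤ Y →
    Y ≤ C * Y ^ ε * ((Nat.primeCounting ⌊Y / 301⌋₊ : ℝ) + 1) := by
  have h1 : ∀ᶠ x : ℝ in atTop, Real.log x ≤ (1 / 4) * x ^ ε := by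
    have h4 := (isLittleO_log_rpow_atTop hε).bound (show (0 : ℝ) < 1 / 4 by norm_num)
    filter_upwards [h4, eventually_ge_atTop 1] with x hx hx1
    rw [Real.norm_of_nonneg (Real.log_nonneg hx1), Real.norm_of_nonneg (by positivity)] at hx
    exact hx
  have h2 : ∀ᶠ x : ℝ in atTop, Real.log (x + 1) ≤ x * (Real.log 2 / 2) := by
    have h4 := (isLittleO_log_rpow_atTop (show (0 : ℝ) < 1 by norm_num)).bound (show (0 : ℝ) < Real.log 2 / 4 by
      have := Real.log_pos (show (1 : ℝ) < 2 by norm_num)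
      positivity)
    have h5 : Tendsto (fun x : ℝ => x + 1) atTop atTop := tendsto_atTop_add_const_right _ _ tendsto_id
    filter_upwards [h5.eventually h4, eventually_ge_atTop 1] with x hx hx1
    rw [Real.norm_of_nonneg (Real.log_nonneg (by linarith)), Real.norm_of_nonneg (by positivity), Real.rpow_one] at hx
    have h6 := Real.log_pos (show (1 : ℝ) < 2 by norm_num)
    nlinarith
  obtain ⟨x₀, hx₀⟩ := eventually_atTop.1 (h1.and (h2.and (eventually_ge_atTop (2 : ℝ))))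
  refine ⟨602 + 301 * (|x₀| + 1), by have := abs_nonneg x₀; linarith, fun Y hY => ?_⟩
  obtain ⟨M, hM⟩ : ∃ M : ℕ, M = ⌊Y / 301⌋₊ := ⟨_, rfl⟩
  rw [← hM]
  have hY0 : 0 < Y := by linarith
  have hYε : 1 ≤ Y ^ ε := Real.one_le_rpow hY hε.le
  have hπ0 : (0 : ℝ) ≤ (Nat.primeCounting M : ℝ) := by positivity
  have hlt : Y / 301 < M + 1 := by
    rw [hM]
    exact Nat.lt_floor_add_one _
  have hle : (M : ℝ) ≤ Y / 301 := by
    rw [hM]
    exact Nat.floor_le (by positivity)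
  by_cases hx : x₀ ≤ (M : ℝ)
  · obtain ⟨h3, h4, h5⟩ := hx₀ M hx
    have hM1 : (1 : ℝ) < M := by linarith
    have hlM : 0 < Real.log M := Real.log_pos hM1
    have h6 := Chebyshev.pi_ge M
    have h7 : (M : ℝ) * (Real.log 2 / 2) ≤ (Nat.primeCounting M : ℝ) * Real.log M := by
      rw [div_le_iff₀ hlM] at h6
      linarith
    have h8 : (M : ℝ) ≤ (M : ℝ) ^ ε * (Nat.primeCounting M : ℝ) := by
      have h9 : (Nat.primeCounting M : ℝ) * Real.log M ≤ (Nat.primeCounting M : ℝ) * ((1 / 4) * (M : ℝ) ^ ε) :=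
        mul_le_mul_of_nonneg_left h3 hπ0
      have h10 := Real.log_two_gt_d9
      nlinarith
    have h11 : (M : ℝ) ^ ε ≤ Y ^ ε := by
      apply Real.rpow_le_rpow (by linarith) _ hε.le
      refine hle.trans ?_
      rw [div_le_iff₀ (by norm_num)]
      linarith
    calc Y ≤ 301 * (M + 1) := by
          rw [div_lt_iff₀ (by norm_num)] at hlt
          linarith
      _ ≤ 602 * M := by linarith
      _ ≤ 602 * (Y ^ ε * (Nat.primeCounting M : ℝ)) := by
          refine mul_le_mul_of_nonneg_left (h8.trans ?_) (by norm_num)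
          exact mul_le_mul_of_nonneg_right h11 hπ0
      _ = 602 * Y ^ ε * (Nat.primeCounting M : ℝ) := by ring
      _ ≤ (602 + 301 * (|x₀| + 1)) * Y ^ ε * ((Nat.primeCounting M : ℝ) + 1) := by
          have := abs_nonneg x₀
          gcongr
          · linarith
          · linarith
  · push Not at hx
    have h12 : Y ≤ 301 * (|x₀| + 1) := by
      rw [div_lt_iff₀ (by norm_num)] at hlt
      have := le_abs_self x₀
      linarith
    have h13 : 0 ≤ |x₀| := abs_nonneg x₀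
    calc Y ≤ 301 * (|x₀| + 1) := h12
      _ ≤ 602 + 301 * (|x₀| + 1) := by linarith
      _ = (602 + 301 * (|x₀| + 1)) * 1 * 1 := by ring
      _ ≤ (602 + 301 * (|x₀| + 1)) * Y ^ ε * ((Nat.primeCounting M : ℝ) + 1) := by
          gcongr
          linarith

/-- the small primes -/
lemma small_prime {n l : ℕ} (hn : 2 ≤ n) (hl : 1 ≤ l) (D : ℕ) (hD : 1 ≤ D) (p : ℕ) (hp : 1 ≤ p)
    (h : p ≤ ⌊(D : ℝ) ^ (1 / ((l : ℝ) * n * (n - 1))) / 301⌋₊) : (2 * (150 * p) ^ l) ^ (n * (n - 1)) < D := by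
  obtain ⟨Y, hY⟩ : ∃ Y : ℝ, Y = (D : ℝ) ^ (1 / ((l : ℝ) * n * (n - 1))) := ⟨_, rfl⟩
  rw [← hY] at h
  have hD0 : (0 : ℝ) < D := by exact_mod_cast hD
  have hY0 : 0 ≤ Y := by rw [hY]; positivity
  have hpr : (1 : ℝ) ≤ p := by exact_mod_cast hp
  have h1 : (p : ℝ) ≤ Y / 301 := (Nat.le_floor_iff (by positivity)).1 h
  have h2 : 301 * (p : ℝ) ≤ Y := by
    rw [le_div_iff₀ (by norm_num)] at h1
    linarith
  have hnr : (2 : ℝ) ≤ n := by exact_mod_cast hn
  have hlr : (1 : ℝ) ≤ l := by exact_mod_cast hl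
  have h3 : Y ^ (l * (n * (n - 1))) = D := by
    rw [hY, ← Real.rpow_natCast, ← Real.rpow_mul hD0.le]
    have e : 1 / ((l : ℝ) * n * (n - 1)) * ((l * (n * (n - 1)) : ℕ) : ℝ) = 1 := by
      push_cast [Nat.cast_sub (show 1 ≤ n by omega)]
      have h4 : (n : ℝ) - 1 ≠ 0 := by linarith
      have h5 : (l : ℝ) ≠ 0 := by linarith
      have h6 : (n : ℝ) ≠ 0 := by linarith
      field_simp
    rw [e, Real.rpow_one]
  have h4 : ((2 * (150 * p) ^ l : ℕ) : ℝ) < Y ^ l := by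
    push_cast
    calc 2 * (150 * (p : ℝ)) ^ l ≤ 2 ^ l * (150 * (p : ℝ)) ^ l := by
          refine mul_le_mul_of_nonneg_right ?_ (by positivity)
          calc (2 : ℝ) = 2 ^ 1 := by norm_num
            _ ≤ 2 ^ l := pow_le_pow_right₀ (by norm_num) hl
      _ = (300 * (p : ℝ)) ^ l := by
          rw [← mul_pow]
          congr 1
          ring
      _ < (301 * (p : ℝ)) ^ l := by
          apply pow_lt_pow_left₀ (by linarith) (by positivity) (by omega)
      _ ≤ Y ^ l := pow_le_pow_left₀ (by positivity) h2 l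
  have h5 : (((2 * (150 * p) ^ l) ^ (n * (n - 1)) : ℕ) : ℝ) < (D : ℝ) := by
    rw [← h3, Nat.cast_pow, pow_mul Y l]
    apply pow_lt_pow_left₀ h4 (by positivity)
    have : 0 < n * (n - 1) := Nat.mul_pos (by omega) (by omega)
    omega
  exact_mod_cast h5

open Classical in
/-- **the torsion of the class group from a positive proportion of primes which are norms** -/
theorem tor_of_prop (n : ℕ) (hn : 2 ≤ n) (ε : ℝ) (hε : 0 < ε) : ∃ C : ℝ, 0 < C ∧ ∀ l : ℕ, 1 ≤ l →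
    ∀ (K : Type) [Field K] [NumberField K], Module.finrank ℚ K = n → ∀ (y x : ℕ) (E : ℝ), 1 ≤ y → 1 ≤ E →
    x = min (Nat.primeCounting ⌊((discr K).natAbs : ℝ) ^ (1 / ((l : ℝ) * n * (n - 1))) / 301⌋₊) ⌊E⌋₊ →
    (y ≤ x → x ≤ 2 * n * ((range x).filter (fun k => ∃ P : Ideal (𝓞 K), Ideal.absNorm P = pr k)).card) →
    (Nat.card {c : ClassGroup (𝓞 K) // c ^ l = 1} : ℝ) ≤ C * l ^ n * y * ((discr K).natAbs : ℝ) ^ (1 / 2 + ε) *
      max (((discr K).natAbs : ℝ) ^ (-(1 / ((l : ℝ) * n * (n - 1))))) (1 / E) := by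
  obtain ⟨C, hC, hT⟩ := Pool.Agent.TH869.EVF.tor_bound n hn (ε / 3) (by positivity)
  obtain ⟨C₁, hC₁, hπ⟩ := pi_lower (ε / 3) (by positivity)
  -- the number of prime factors
  obtain ⟨C₂, hC₂, hω⟩ : ∃ C₂ : ℝ, 1 ≤ C₂ ∧ ∀ D : ℕ, 1 ≤ D → (D.primeFactors.card : ℝ) ≤ C₂ * (D : ℝ) ^ (ε / 3) := by
    refine ⟨1 + 3 / (ε * Real.log 2), by
      have := Real.log_pos (show (1 : ℝ) < 2 by norm_num)
      have h2 : 0 < 3 / (ε * Real.log 2) := by positivity
      linarith, fun D hD => ?_⟩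
    have hDr : (1 : ℝ) ≤ D := by exact_mod_cast hD
    have h5 : 2 ^ D.primeFactors.card ≤ D := by
      calc 2 ^ D.primeFactors.card ≤ ∏ p ∈ D.primeFactors, p := by
            refine Finset.pow_card_le_prod _ _ _ fun p hp => ?_
            exact (Nat.prime_of_mem_primeFactors hp).two_le
        _ ≤ D := Nat.le_of_dvd (by omega) (Nat.prod_primeFactors_dvd D)
    have h6 : (2 : ℝ) ^ D.primeFactors.card ≤ D := by exact_mod_cast h5
    have h7 := Real.log_le_log (by positivity) h6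
    rw [Real.log_pow] at h7
    have h8 := Real.log_pos (show (1 : ℝ) < 2 by norm_num)
    have h9 := Real.log_le_rpow_div (show (0 : ℝ) ≤ D by linarith) (show (0 : ℝ) < ε / 3 by positivity)
    have h10 : (0 : ℝ) ≤ (D : ℝ) ^ (ε / 3) := by positivity
    calc (D.primeFactors.card : ℝ) = (D.primeFactors.card : ℝ) * Real.log 2 / Real.log 2 := by field_simp
      _ ≤ ((D : ℝ) ^ (ε / 3) / (ε / 3)) / Real.log 2 := by
          gcongr
          linarith
      _ = 3 / (ε * Real.log 2) * (D : ℝ) ^ (ε / 3) := by field_simp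
      _ ≤ (1 + 3 / (ε * Real.log 2)) * (D : ℝ) ^ (ε / 3) := by
          apply mul_le_mul_of_nonneg_right _ h10
          linarith
  have hn0 : (0 : ℝ) < n := by exact_mod_cast (by omega : 0 < n)
  refine ⟨C * (8 * n * C₂) * C₁, by positivity, ?_⟩
  intro l hl K _ _ hK y x E hy hE hx hprop
  obtain ⟨D, hD⟩ : ∃ D : ℕ, D = (discr K).natAbs := ⟨_, rfl⟩
  rw [← hD] at hx ⊢
  have hD1 : 1 ≤ D := by
    rw [hD]
    exact Nat.one_le_iff_ne_zero.2 (Int.natAbs_ne_zero.2 (discr_ne_zero K))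
  have hDr : (1 : ℝ) ≤ D := by exact_mod_cast hD1
  obtain ⟨Y, hY⟩ : ∃ Y : ℝ, Y = (D : ℝ) ^ (1 / ((l : ℝ) * n * (n - 1))) := ⟨_, rfl⟩
  have hnr : (2 : ℝ) ≤ n := by exact_mod_cast hn
  have hlr : (1 : ℝ) ≤ l := by exact_mod_cast hl
  have hden : 1 ≤ (l : ℝ) * n * (n - 1) := by
    have h1 : 2 ≤ (l : ℝ) * n := by nlinarith
    nlinarith
  have hY1 : 1 ≤ Y := by
    rw [hY]
    exact Real.one_le_rpow hDr (by positivity)
  have hYD : Y ≤ D := by
    rw [hY]
    calc (D : ℝ) ^ (1 / ((l : ℝ) * n * (n - 1))) ≤ (D : ℝ) ^ (1 : ℝ) := by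
          apply Real.rpow_le_rpow_of_exponent_le hDr
          rw [div_le_one (by linarith)]
          exact hden
      _ = D := Real.rpow_one _
  have hYinv : (D : ℝ) ^ (-(1 / ((l : ℝ) * n * (n - 1)))) = 1 / Y := by
    rw [Real.rpow_neg (by linarith), ← hY, one_div]
  rw [hYinv]
  rw [← hY] at hx
  obtain ⟨Z, hZ⟩ : ∃ Z : ℝ, Z = (D : ℝ) ^ (ε / 3) := ⟨_, rfl⟩
  have hZ1 : 1 ≤ Z := by
    rw [hZ]
    exact Real.one_le_rpow hDr (by positivity)
  -- the primes
  obtain ⟨G₀, hG₀⟩ : ∃ G₀ : Finset ℕ, G₀ = ((range x).filter (fun k => ∃ P : Ideal (𝓞 K), Ideal.absNorm P = pr k)).image pr := ⟨_, rfl⟩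
  obtain ⟨G, hG⟩ : ∃ G : Finset ℕ, G = G₀ \ D.primeFactors := ⟨_, rfl⟩
  have hG₀c : G₀.card = ((range x).filter (fun k => ∃ P : Ideal (𝓞 K), Ideal.absNorm P = pr k)).card := by
    rw [hG₀]
    exact card_image_of_injective _ fun a b h => Pool.Agent.TH894.NF.pr_inj h
  have hGc : (G₀.card : ℝ) ≤ (G.card : ℝ) + C₂ * Z := by
    have h1 : G₀.card ≤ G.card + D.primeFactors.card := by
      rw [hG]
      exact card_le_card_sdiff_add_card
    have h2 := hω D hD1
    rw [← hZ] at h2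
    have h3 : (G₀.card : ℝ) ≤ (G.card : ℝ) + (D.primeFactors.card : ℝ) := by exact_mod_cast h1
    linarith
  have hGmem : ∀ p ∈ G, p.Prime ∧ (2 * (150 * p) ^ l) ^ (n * (n - 1)) < (discr K).natAbs ∧
      ¬ p ∣ (discr K).natAbs ∧ ∃ P : Ideal (𝓞 K), Ideal.absNorm P = p := by
    intro p hp
    rw [hG, Finset.mem_sdiff, hG₀, Finset.mem_image] at hp
    obtain ⟨⟨k, hk, hkp⟩, hpD⟩ := hp
    rw [mem_filter, mem_range] at hk
    have hpp : p.Prime := by
      rw [← hkp]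
      exact Pool.Agent.TH894.NF.pr_prime k
    have hple : p ≤ ⌊Y / 301⌋₊ := by
      have h1 : k < Nat.primeCounting ⌊Y / 301⌋₊ := by
        have := hk.1
        omega
      have h2 : Nat.nth Nat.Prime k < ⌊Y / 301⌋₊ + 1 := by
        apply Nat.nth_lt_of_lt_count
        exact h1
      have h3 : pr k = Nat.nth Nat.Prime k := rfl
      omega
    refine ⟨hpp, ?_, ?_, ?_⟩
    · rw [← hD]
      apply small_prime hn hl D hD1 p hpp.one_lt.le
      rw [← hY]
      exact hple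
    · rw [← hD]
      intro h
      exact hpD (Nat.mem_primeFactors.2 ⟨hpp, h, by omega⟩)
    · obtain ⟨P, hP⟩ := hk.2
      exact ⟨P, by rw [hP, hkp]⟩
  have hmain := hT l hl K hK G hGmem
  rw [← hD] at hmain
  -- the number of the primes
  have hcount : (x : ℝ) + 1 ≤ ((G.card : ℝ) + 1) * (8 * n * C₂ * Z * y) := by
    have hyr : (1 : ℝ) ≤ y := by exact_mod_cast hy
    have hCZ : 1 ≤ C₂ * Z := by nlinarith
    have hG0 : (0 : ℝ) ≤ G.card := by positivity
    rcases lt_or_ge x y with h | h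
    · have h1 : (x : ℝ) + 1 ≤ y := by exact_mod_cast h
      have h2 : (y : ℝ) ≤ ((G.card : ℝ) + 1) * (8 * n * C₂ * Z * y) := by
        have h3 : 1 ≤ 8 * n * (C₂ * Z) := by nlinarith
        calc (y : ℝ) = 1 * (1 * y) := by ring
          _ ≤ ((G.card : ℝ) + 1) * (8 * n * (C₂ * Z) * y) := by
              gcongr
              linarith
          _ = _ := by ring
      linarith
    · have h1 := hprop h
      rw [← hG₀c] at h1
      have h2 : (x : ℝ) ≤ 2 * n * G₀.card := by exact_mod_cast h1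
      have h3 : (x : ℝ) ≤ 2 * n * ((G.card : ℝ) + C₂ * Z) := h2.trans (mul_le_mul_of_nonneg_left hGc (by positivity))
      have h4 : (x : ℝ) + 1 ≤ 8 * n * C₂ * Z * ((G.card : ℝ) + 1) := by
        have h5 : (G.card : ℝ) + C₂ * Z ≤ 2 * (C₂ * Z * ((G.card : ℝ) + 1)) := by nlinarith [mul_nonneg (show (0 : ℝ) ≤ C₂ * Z - 1 by linarith) hG0]
        have h6 : 1 ≤ n * (C₂ * Z * ((G.card : ℝ) + 1)) := by
          have h7 : 1 ≤ C₂ * Z * ((G.card : ℝ) + 1) := by nlinarith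
          nlinarith
        have h8 : 2 * (n : ℝ) * ((G.card : ℝ) + C₂ * Z) ≤ 2 * n * (2 * (C₂ * Z * ((G.card : ℝ) + 1))) :=
          mul_le_mul_of_nonneg_left h5 (by positivity)
        linarith
      calc (x : ℝ) + 1 ≤ 8 * n * C₂ * Z * ((G.card : ℝ) + 1) * 1 := by linarith
        _ ≤ 8 * n * C₂ * Z * ((G.card : ℝ) + 1) * y := by gcongr
        _ = _ := by ring
  -- the lower bound for x
  have hxlow : 1 ≤ (x + 1) * (C₁ * Z * max (1 / Y) (1 / E)) := by
    have hC₁Z : 1 ≤ C₁ * Z := by nlinarith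
    have hm0 : 0 ≤ max (1 / Y) (1 / E) := le_max_of_le_left (by positivity)
    rcases le_total (Nat.primeCounting ⌊Y / 301⌋₊) ⌊E⌋₊ with h | h
    · rw [min_eq_left h] at hx
      have h1 := hπ Y hY1
      rw [← hx] at h1
      have h2 : Y ^ (ε / 3) ≤ Z := by
        rw [hZ]
        exact Real.rpow_le_rpow (by linarith) hYD (by positivity)
      have h3 : Y ≤ C₁ * Z * ((x : ℝ) + 1) := by
        refine h1.trans ?_
        gcongr
      calc (1 : ℝ) = Y * (1 / Y) := by field_simp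
        _ ≤ (C₁ * Z * ((x : ℝ) + 1)) * (1 / Y) := by gcongr
        _ ≤ (C₁ * Z * ((x : ℝ) + 1)) * max (1 / Y) (1 / E) := by
            gcongr
            exact le_max_left _ _
        _ = _ := by ring
    · rw [min_eq_right h] at hx
      have h1 : E < (x : ℝ) + 1 := by
        rw [hx]
        exact Nat.lt_floor_add_one E
      calc (1 : ℝ) = E * (1 / E) := by field_simp
        _ ≤ ((x : ℝ) + 1) * (1 / E) := by gcongr
        _ ≤ ((x : ℝ) + 1) * max (1 / Y) (1 / E) := by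
            gcongr
            exact le_max_right _ _
        _ = ((x : ℝ) + 1) * (1 * max (1 / Y) (1 / E)) := by ring
        _ ≤ ((x : ℝ) + 1) * ((C₁ * Z) * max (1 / Y) (1 / E)) := by gcongr
  -- the end
  obtain ⟨T, hTdef⟩ : ∃ T : ℝ, T = (Nat.card {c : ClassGroup (𝓞 K) // c ^ l = 1} : ℝ) := ⟨_, rfl⟩
  rw [← hTdef] at hmain ⊢
  have hT0 : 0 ≤ T := by rw [hTdef]; positivity
  obtain ⟨Mx, hMx⟩ : ∃ Mx : ℝ, Mx = max (1 / Y) (1 / E) := ⟨_, rfl⟩
  rw [← hMx] at hxlow ⊢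
  have hMx0 : 0 ≤ Mx := by
    rw [hMx]
    exact le_max_of_le_left (by positivity)
  have e1 : (D : ℝ) ^ (1 / 2 + ε) = (D : ℝ) ^ (1 / 2 + ε / 3) * (Z * Z) := by
    rw [hZ, ← Real.rpow_add (by linarith), ← Real.rpow_add (by linarith)]
    congr 1
    ring
  rw [e1]
  calc T = T * 1 := (mul_one _).symm
    _ ≤ T * ((x + 1) * (C₁ * Z * Mx)) := mul_le_mul_of_nonneg_left hxlow hT0
    _ ≤ T * ((((G.card : ℝ) + 1) * (8 * n * C₂ * Z * y)) * (C₁ * Z * Mx)) := by
        apply mul_le_mul_of_nonneg_left _ hT0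
        apply mul_le_mul_of_nonneg_right hcount
        positivity
    _ = (T * ((G.card : ℝ) + 1)) * ((8 * n * C₂ * Z * y) * (C₁ * Z * Mx)) := by ring
    _ ≤ (C * l ^ n * (D : ℝ) ^ (1 / 2 + ε / 3)) * ((8 * n * C₂ * Z * y) * (C₁ * Z * Mx)) := by
        apply mul_le_mul_of_nonneg_right hmain
        positivity
    _ = _ := by ring

end Pool.Agent.N842.TU
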