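import Pool.Agent.N842.TU.Loc
import Pool.Agent.N842.TU.Tor
import Pool.Agent.R459.Tor1
import Pool.Agent.Y57.FD.Tup0

/-! # Few changed digits and the torsion in class groups -/

set_option autoImplicit false

namespace Pool.Agent.N842.TU

open Finset NumberField Polynomial
open Pool.Agent.TH894.NF (pr)
open Pool.Agent.TH894.NE (mean)
open Pool.Agent.Y57.FD (digit change exceptions)

lemma map_fam {d : ℕ} (G : ℤ[X] × (Fin d → ℤ[X])) (m : Fin d → ℕ) (p : ℕ) :
    (fam G (fun j => (m j : ℤ))).map (Int.castRingHom (ZMod p)) = fam (redG p G) (fun j => (m j : ZMod p)) := by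
  unfold fam redG
  rw [Polynomial.map_add, Polynomial.map_sum]
  congr 1
  refine sum_congr rfl fun j _ => ?_
  rw [Polynomial.map_mul, map_C]
  simp

lemma norm_of_sr {n d : ℕ} (hn : 1 ≤ n) {G : ℤ[X] × (Fin d → ℤ[X])} (h : Sys n G) (m : Fin d → ℕ) (K : Type) [Field K] [NumberField K] (α : K)
    (hK : Module.finrank ℚ K = n) (hα : IntermediateField.adjoin ℚ {α} = ⊤) (h0 : aeval α (fam G (fun j => (m j : ℤ))) = 0)
    (p : ℕ) [hp : Fact p.Prime] (hs : 1 ≤ sr (fam (redG p G) (fun j => (m j : ZMod p)))) : ∃ P : Ideal (𝓞 K), Ideal.absNorm P = p := by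
  classical
  obtain ⟨F, hF⟩ : ∃ F : ℤ[X], F = fam G (fun j => (m j : ℤ)) := ⟨_, rfl⟩
  have hFm : F.Monic ∧ F.natDegree = n := by
    have hlt : (∑ j, C ((m j : ℤ)) * G.2 j).degree < G.1.degree := by
      rw [degree_eq_natDegree h.monic.ne_zero, h.deg]
      apply mem_degreeLT.1
      refine Submodule.sum_mem _ fun j _ => ?_
      rw [← smul_eq_C_mul]
      exact Submodule.smul_mem _ _ (mem_degreeLT.2 (h.lt j))
    rw [hF]
    refine ⟨h.monic.add_of_left hlt, ?_⟩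
    unfold fam
    rw [natDegree_add_eq_left_of_degree_lt hlt, h.deg]
  rw [← map_fam, ← hF] at hs
  unfold sr at hs
  obtain ⟨x, hx⟩ := card_pos.1 (by omega : 0 < (univ.filter (fun x : ZMod p => (F.map (Int.castRingHom (ZMod p))).eval x = 0 ∧
    (derivative (F.map (Int.castRingHom (ZMod p)))).eval x ≠ 0)).card)
  rw [mem_filter] at hx
  obtain ⟨_, h1, h2⟩ := hx
  have hx : x = ((x.val : ℤ) : ZMod p) := by
    rw [Int.cast_natCast, ZMod.natCast_val, ZMod.cast_id]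
  have e : ∀ Q : ℤ[X], (Q.map (Int.castRingHom (ZMod p))).eval x = ((Q.eval (x.val : ℤ) : ℤ) : ZMod p) := by
    intro Q
    conv_lhs => rw [hx]
    rw [eval_intCast_map]
    rfl
  rw [e] at h1
  rw [derivative_map, e] at h2
  rw [← hF] at h0
  refine Pool.Agent.R459.Tor.norm_of_root K F hFm.1 (by rw [hFm.2]; exact hn) α 0 hα (by rw [hFm.2]; exact hK) (by rw [h0]; simp) p
    (x.val : ℤ) ?_ ?_
  · rw [sub_zero]
    exact (ZMod.intCast_zmod_eq_zero_iff_dvd _ p).1 h1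
  · intro h3
    exact h2 ((ZMod.intCast_zmod_eq_zero_iff_dvd _ p).2 h3)

/-- the bound for the torsion of the class groups of all fields of degree `n` given by the polynomial `F` -/
def Bd (n : ℕ) (C ε M E : ℝ) (F : ℤ[X]) : Prop :=
  ∀ (K : Type) [Field K] [NumberField K] (α : K), Module.finrank ℚ K = n → IntermediateField.adjoin ℚ {α} = ⊤ → aeval α F = 0 →
    ∀ l : ℕ, 1 ≤ l → (Nat.card {c : ClassGroup (𝓞 K) // c ^ l = 1} : ℝ) ≤ C * l ^ n * M * |(discr K : ℝ)| ^ (1 / 2 + ε) *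
      max (|(discr K : ℝ)| ^ (-(1 / ((l : ℝ) * n * (n - 1))))) (1 / E)

/-- the number of the simple roots modulo `p` -/
noncomputable def srp {d : ℕ} (G : ℤ[X] × (Fin d → ℤ[X])) (p : ℕ) (m : Fin d → ℕ) : ℕ :=
  if h : p.Prime then
    haveI : Fact p.Prime := ⟨h⟩
    sr (fam (redG p G) (fun j => (m j : ZMod p)))
  else 0

lemma HH_eq {d : ℕ} (G : ℤ[X] × (Fin d → ℤ[X])) (p : ℕ) (hp : p.Prime) (m : Fin d → ℕ) : HH G p m = (srp G p m : ℝ) - 1 := by
  unfold HH srp
  rw [dif_pos hp, dif_pos hp]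

lemma srp_le {n d : ℕ} (hn : 1 ≤ n) {G : ℤ[X] × (Fin d → ℤ[X])} (h : Sys n G) (p : ℕ) (hp : p.Prime) (m : Fin d → ℕ) : srp G p m ≤ n := by
  have : Fact p.Prime := ⟨hp⟩
  unfold srp
  rw [dif_pos hp]
  obtain ⟨h6, h7⟩ := fam_monic (n := n) (redG p G) (h.monic.map _) (by
    show (G.1.map _).natDegree = n
    rw [h.monic.natDegree_map, h.deg]) (redG_lt h p) (fun j => (m j : ZMod p))
  exact sr_le _ h6 h7

/-- the number of the primes which are norms -/
lemma count_of_sum {n : ℕ} (hn : 1 ≤ n) (x : ℕ) (hx : 16 ≤ x) (s : ℕ → ℕ) (hs : ∀ k, s k ≤ n)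
    (h : |∑ k ∈ range x, ((s k : ℝ) - 1)| ≤ Real.sqrt x * (x : ℝ) ^ (1 / 4 : ℝ)) :
    x ≤ 2 * n * ((range x).filter (fun k => 1 ≤ s k)).card := by
  have hxr : (16 : ℝ) ≤ x := by exact_mod_cast hx
  have h1 : Real.sqrt x * (x : ℝ) ^ (1 / 4 : ℝ) ≤ x / 2 := by
    have h2 : (x : ℝ) ^ (1 / 4 : ℝ) * 2 ≤ Real.sqrt x := by
      rw [Real.sqrt_eq_rpow]
      have h3 : (x : ℝ) ^ (1 / 2 : ℝ) = (x : ℝ) ^ (1 / 4 : ℝ) * (x : ℝ) ^ (1 / 4 : ℝ) := by
        rw [← Real.rpow_add (by linarith)]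
        norm_num
      rw [h3]
      apply mul_le_mul_of_nonneg_left _ (by positivity)
      calc (2 : ℝ) = (16 : ℝ) ^ (1 / 4 : ℝ) := by
            rw [show (16 : ℝ) = 2 ^ (4 : ℝ) by norm_num, ← Real.rpow_mul (by norm_num)]
            norm_num
        _ ≤ (x : ℝ) ^ (1 / 4 : ℝ) := Real.rpow_le_rpow (by norm_num) hxr (by norm_num)
    have h4 : Real.sqrt x * Real.sqrt x = x := Real.mul_self_sqrt (by linarith)
    have h5 := Real.sqrt_nonneg (x : ℝ)
    nlinarith
  rw [sum_sub_distrib, sum_const, card_range, nsmul_eq_mul, mul_one] at h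
  have h2 := (abs_le.1 h).1
  have h3 : (x : ℝ) / 2 ≤ ∑ k ∈ range x, (s k : ℝ) := by linarith
  have h4 : ∑ k ∈ range x, s k ≤ n * ((range x).filter (fun k => 1 ≤ s k)).card := by
    calc ∑ k ∈ range x, s k ≤ ∑ k ∈ range x, (if 1 ≤ s k then n else 0) := by
          refine sum_le_sum fun k _ => ?_
          split_ifs with h5
          · exact hs k
          · omega
      _ = n * ((range x).filter (fun k => 1 ≤ s k)).card := by
          rw [← sum_filter, sum_const, smul_eq_mul, mul_comm]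
  have h5 : (x : ℝ) ≤ 2 * ((n * ((range x).filter (fun k => 1 ≤ s k)).card : ℕ) : ℝ) := by
    have h6 : ((∑ k ∈ range x, s k : ℕ) : ℝ) ≤ ((n * ((range x).filter (fun k => 1 ≤ s k)).card : ℕ) : ℝ) := by exact_mod_cast h4
    push_cast at h6 ⊢
    linarith
  have h6 : x ≤ 2 * (n * ((range x).filter (fun k => 1 ≤ s k)).card) := by exact_mod_cast h5
  linarith

/-- **Torsion in the class groups of almost all fields, few changed digits of several coefficients.** -/
theorem torsion (n d b : ℕ) (hn : 2 ≤ n) (hd : 1 ≤ d) (hb : 2 ≤ b) (ε : ℝ) (hε : 0 < ε) (A B : ℕ) :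
    ∃ c C : ℝ, 0 < c ∧ 0 < C ∧ ∃ y₀ : ℕ, ∀ (L r : Fin d → ℕ) (y ρ : ℕ), (∀ j, 2 * r j ≤ L j) → (∀ j, ρ ≤ r j) → y₀ ≤ y →
    ∀ N : Fin d → ℕ, (∀ j, N j < b ^ L j) → ∀ f : Fin d → ℕ → ℕ, (∀ j i, f j i < b ∧ f j i ≠ digit b i (N j)) →
    ∀ 𝒢 : Finset (ℤ[X] × (Fin d → ℤ[X])), 𝒢.card ≤ y ^ B → (∀ G ∈ 𝒢, Sys n G) →
    ∀ E : (Fin d → ℕ) → Prop,
    (∀ m : Fin d → ℕ, (∀ G ∈ 𝒢, Bd n C ε y (Real.exp (c * ρ)) (fam G (fun j => (m j : ℤ)))) → E m) →
    (exceptions b L r N f E : ℝ) ≤ 1 / (y : ℝ) ^ A * ∏ j, ((L j).choose (r j) : ℝ) := by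
  classical
  obtain ⟨C, hC, hT⟩ := tor_of_prop n hn ε hε
  obtain ⟨c, hc, y₁, hlaw⟩ := Pool.Agent.Y57.FD.tuples0 b d 1 hb hd le_rfl (1 / 4) (by norm_num) A B n n
    (by exact_mod_cast (by omega : 1 ≤ n)) (by positivity)
  refine ⟨c, C, hc, hC, max y₁ 16, fun L r y ρ hrL hρ hy N hN f hf 𝒢 h𝒢 hsys E hE => ?_⟩
  have hy1 : y₁ ≤ y := (le_max_left _ _).trans hy
  have hy16 : 16 ≤ y := (le_max_right _ _).trans hy
  refine hlaw L r y hrL hy1 N hN f hf (ℤ[X] × (Fin d → ℤ[X])) (fun x => if y ≤ x then 𝒢 else ∅) (fun x _ => ?_)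
    (fun _ _ => 1) (fun _ _ _ _ => by norm_num) (fun G _ p m => if Sys n G then HH G p m else 0) (fun G _ p _ m => ?_)
    (fun G _ p hp m => ?_) (fun x G hG => ?_) E (fun m hm => hE m fun G hG K _ _ α hK hα h0 l hl => ?_)
  · by_cases h : y ≤ x
    · simp only [if_pos h]
      exact h𝒢.trans (Nat.pow_le_pow_left h B)
    · simp only [if_neg h, card_empty]
      exact Nat.zero_le _
  · by_cases h : Sys n G
    · simp only [if_pos h]
      exact HH_mod G p m
    · simp only [if_neg h]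
  · by_cases h : Sys n G
    · simp only [if_pos h]
      exact HH_le (by omega) h p hp m
    · simp only [if_neg h, abs_zero]
      positivity
  · have hG' : G ∈ 𝒢 := by
      by_cases h : y ≤ x
      · simpa only [if_pos h] using hG
      · simp only [if_neg h] at hG
        exact absurd hG (notMem_empty _)
    refine ⟨0, fun p hp => ?_⟩
    have h := hsys G hG'
    have e : (fun m => if Sys n G then HH G p m else 0) = HH G p := by
      funext m
      rw [if_pos h]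
    rw [e]
    exact HH_mean (by omega) h p hp
  · have hD : |(discr K : ℝ)| = ((discr K).natAbs : ℝ) := by
      rw [Nat.cast_natAbs]
      push_cast
      rfl
    rw [hD]
    have hE1 : 1 ≤ Real.exp (c * ρ) := Real.one_le_exp (by positivity)
    refine hT l hl K hK y _ (Real.exp (c * ρ)) (by omega) hE1 rfl fun hyx => ?_
    obtain ⟨x, hx⟩ : ∃ x : ℕ, x = min (Nat.primeCounting ⌊((discr K).natAbs : ℝ) ^ (1 / ((l : ℝ) * n * (n - 1))) / 301⌋₊)
      ⌊Real.exp (c * ρ)⌋₊ := ⟨_, rfl⟩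
    rw [← hx] at hyx ⊢
    have hxE : (x : ℝ) ≤ Real.exp (c * ρ) := by
      have h1 : x ≤ ⌊Real.exp (c * ρ)⌋₊ := by
        rw [hx]
        exact min_le_right _ _
      exact (Nat.le_floor_iff (by positivity)).1 h1
    have h1 := hm x (by omega) hyx (fun j => hxE.trans (Real.exp_le_exp.2 (by
      have : (ρ : ℝ) ≤ r j := by exact_mod_cast hρ j
      gcongr))) G (by rw [if_pos hyx]; exact hG)
    have hsG := hsys G hG
    have h2 : ∑ k ∈ range x, (fun _ : ℕ => (1 : ℝ)) k * ∏ i : Fin 1, (if Sys n G then HH G (pr (k + i)) m else 0) =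
        ∑ k ∈ range x, ((srp G (pr k) m : ℝ) - 1) := by
      refine sum_congr rfl fun k _ => ?_
      rw [Fin.prod_univ_one, if_pos hsG, one_mul]
      exact HH_eq G (pr k) (Pool.Agent.TH894.NF.pr_prime k) m
    have h3 : Real.sqrt (max 1 (∑ k ∈ range x, (fun _ : ℕ => (1 : ℝ)) k ^ 2)) = Real.sqrt x := by
      congr 1
      simp only [one_pow, sum_const, card_range, nsmul_eq_mul, mul_one]
      apply max_eq_right
      exact_mod_cast (by omega : 1 ≤ x)
    rw [h3] at h1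
    have h1' := (le_of_eq (congrArg abs h2.symm)).trans h1
    have h4 := count_of_sum (n := n) (by omega) x (by omega) (fun k => srp G (pr k) m)
      (fun k => srp_le (by omega) hsG (pr k) (Pool.Agent.TH894.NF.pr_prime k) m) h1'
    refine h4.trans (Nat.mul_le_mul_left _ (card_le_card ?_))
    intro k hk
    rw [mem_filter] at hk ⊢
    refine ⟨hk.1, ?_⟩
    have hpk := Pool.Agent.TH894.NF.pr_prime k
    have : Fact (pr k).Prime := ⟨hpk⟩
    have h5 := hk.2
    unfold srp at h5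
    rw [dif_pos hpk] at h5
    exact norm_of_sr (by omega) hsG m K α hK hα h0 (pr k) h5

end Pool.Agent.N842.TU
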