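import Pool.Agent.N842.ST.Sep

/-! # The mean number of simple roots modulo a prime number -/

set_option autoImplicit false

namespace Pool.Agent.N842.TU

open Finset Polynomial
open Pool.Agent.TH894.NE (mean)
open Pool.Agent.N842.ST (av mean_eq_av)

/-- the family of polynomials `g + ∑ u_j h_j` over a field -/
noncomputable def fam {F : Type} [CommRing F] {d : ℕ} (G : F[X] × (Fin d → F[X])) (u : Fin d → F) : F[X] :=
  G.1 + ∑ j, C (u j) * G.2 j

section
variable {F : Type} [Field F] [Fintype F] [DecidableEq F] {d : ℕ}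

/-- the number of the simple roots -/
noncomputable def sr (P : F[X]) : ℕ := (univ.filter (fun x : F => P.eval x = 0 ∧ (derivative P).eval x ≠ 0)).card

lemma fam_monic {n : ℕ} (G : F[X] × (Fin d → F[X])) (h1 : G.1.Monic) (h2 : G.1.natDegree = n) (h3 : ∀ j, (G.2 j).degree < n)
    (u : Fin d → F) : (fam G u).Monic ∧ (fam G u).natDegree = n := by
  have hlt : (∑ j, C (u j) * G.2 j).degree < G.1.degree := by
    rw [degree_eq_natDegree h1.ne_zero, h2]
    apply mem_degreeLT.1
    refine Submodule.sum_mem _ fun j _ => ?_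
    rw [← smul_eq_C_mul]
    exact Submodule.smul_mem _ _ (mem_degreeLT.2 (h3 j))
  refine ⟨h1.add_of_left hlt, ?_⟩
  unfold fam
  rw [natDegree_add_eq_left_of_degree_lt hlt, h2]

lemma sr_le {n : ℕ} (P : F[X]) (h : P.Monic) (hn : P.natDegree = n) : sr P ≤ n := by
  classical
  have h1 : (univ.filter (fun x : F => P.eval x = 0 ∧ (derivative P).eval x ≠ 0)) ⊆ P.roots.toFinset := by
    intro x hx
    rw [Multiset.mem_toFinset, mem_roots h.ne_zero]
    exact (mem_filter.1 hx).2.1
  calc sr P ≤ P.roots.toFinset.card := card_le_card h1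
    _ ≤ P.roots.card := Multiset.toFinset_card_le _
    _ ≤ P.natDegree := card_roots' P
    _ = n := hn

/-- the common zeros of the polynomials and the derivative, all translations -/
lemma crit_le {n : ℕ} (P : F[X]) (h : P.Monic) (hn : P.natDegree = n) (hn1 : 1 ≤ n) (hp : (Fintype.card F : ℕ) ≤ n ∨ ((n : ℕ) : F) ≠ 0) :
    (univ.filter (fun x : F => (derivative P).eval x = 0)).card ≤ n := by
  classical
  rcases hp with hp | hp
  · exact (card_le_univ _).trans hp
  · have hne : derivative P ≠ 0 := by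
      intro h0
      have h1 : (derivative P).coeff (n - 1) = 0 := by rw [h0, coeff_zero]
      rw [coeff_derivative] at h1
      have e : n - 1 + 1 = n := by omega
      rw [e] at h1
      have h2 : P.coeff n = 1 := by
        rw [← hn]
        exact h
      rw [h2, one_mul] at h1
      apply hp
      rw [← h1]
      have : ((n - 1 : ℕ) : F) + 1 = ((n - 1 + 1 : ℕ) : F) := by push_cast; ring
      rw [this, e]
    have h1 : (univ.filter (fun x : F => (derivative P).eval x = 0)) ⊆ (derivative P).roots.toFinset := by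
      intro x hx
      rw [Multiset.mem_toFinset, mem_roots hne]
      exact (mem_filter.1 hx).2
    calc _ ≤ (derivative P).roots.toFinset.card := card_le_card h1
      _ ≤ (derivative P).roots.card := Multiset.toFinset_card_le _
      _ ≤ (derivative P).natDegree := card_roots' _
      _ ≤ P.natDegree - 1 := natDegree_derivative_le P
      _ ≤ n := by omega

/-- translation of one of the variables -/
lemma fam_shift (G : F[X] × (Fin d → F[X])) (j₀ : Fin d) (s : F) (hs : G.2 j₀ = C s) (u : Fin d → F) (t : F) :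
    fam G (u + Pi.single j₀ t) = fam G u + C (t * s) := by
  classical
  unfold fam
  have h1 : ∑ j, C ((u + Pi.single j₀ t : Fin d → F) j) * G.2 j = ∑ j, C (u j) * G.2 j + ∑ j, C ((Pi.single j₀ t : Fin d → F) j) * G.2 j := by
    rw [← sum_add_distrib]
    refine sum_congr rfl fun j _ => ?_
    rw [Pi.add_apply, C_add, add_mul]
  have h2 : ∑ j, C ((Pi.single j₀ t : Fin d → F) j) * G.2 j = C (t * s) := by
    rw [sum_eq_single j₀]
    · rw [Pi.single_eq_same, hs, ← C_mul]
    · intro j _ hj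
      rw [Pi.single_eq_of_ne hj, C_0, zero_mul]
    · intro h
      exact absurd (mem_univ _) h
  rw [h1, h2]
  ring

/-- sums over all members can be averaged over the translations -/
lemma sum_shift (G : F[X] × (Fin d → F[X])) (j₀ : Fin d) (s : F) (hs : G.2 j₀ = C s) (hs0 : s ≠ 0) (Φ : F[X] → ℝ) :
    (Fintype.card F : ℝ) * ∑ u : Fin d → F, Φ (fam G u) = ∑ u : Fin d → F, ∑ t : F, Φ (fam G u + C t) := by
  classical
  rw [sum_comm]
  have h1 : ∀ t : F, ∑ u : Fin d → F, Φ (fam G u + C t) = ∑ u : Fin d → F, Φ (fam G u) := by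
    intro t
    have h2 : ∀ u : Fin d → F, fam G u + C t = fam G (u + Pi.single j₀ (t / s)) := by
      intro u
      rw [fam_shift G j₀ s hs, div_mul_cancel₀ t hs0]
    rw [sum_congr rfl fun u _ => congrArg Φ (h2 u)]
    have h3 := Equiv.sum_comp (Equiv.addRight (Pi.single j₀ (t / s) : Fin d → F)) (fun u => Φ (fam G u))
    rw [← h3]
    refine sum_congr rfl fun u _ => ?_
    rw [Equiv.coe_addRight]
  rw [sum_congr rfl fun t _ => h1 t, sum_const, card_univ, nsmul_eq_mul]

/-- the sum over the translations: all points are roots once -/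
lemma sr_shift {n : ℕ} (P : F[X]) (h : P.Monic) (hn : P.natDegree = n) (hn1 : 1 ≤ n) (hp : (Fintype.card F : ℕ) ≤ n ∨ ((n : ℕ) : F) ≠ 0) :
    |∑ t : F, ((sr (P + C t) : ℝ) - 1)| ≤ n := by
  classical
  have h1 : ∀ t : F, (sr (P + C t) : ℝ) = ∑ x : F, if P.eval x + t = 0 ∧ (derivative P).eval x ≠ 0 then (1 : ℝ) else 0 := by
    intro t
    unfold sr
    rw [← sum_boole]
    refine sum_congr rfl fun x _ => ?_
    simp only [eval_add, eval_C, derivative_add, derivative_C, add_zero]
  have h2 : ∑ t : F, (sr (P + C t) : ℝ) = ∑ x : F, if (derivative P).eval x ≠ 0 then (1 : ℝ) else 0 := by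
    rw [sum_congr rfl fun t _ => h1 t, sum_comm]
    refine sum_congr rfl fun x _ => ?_
    by_cases hx : (derivative P).eval x ≠ 0
    · rw [if_pos hx]
      rw [sum_eq_single (-P.eval x)]
      · rw [if_pos ⟨by ring, hx⟩]
      · intro t _ ht
        rw [if_neg]
        rintro ⟨h3, _⟩
        apply ht
        linear_combination h3
      · intro h
        exact absurd (mem_univ _) h
    · rw [if_neg hx]
      exact sum_eq_zero fun t _ => if_neg fun h => hx h.2
  rw [sum_sub_distrib, h2, sum_const, card_univ, nsmul_eq_mul, mul_one]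
  have h3 : (∑ x : F, if (derivative P).eval x ≠ 0 then (1 : ℝ) else 0) + (∑ x : F, if (derivative P).eval x = 0 then (1 : ℝ) else 0) =
      (Fintype.card F : ℝ) := by
    rw [← sum_add_distrib]
    have : ∀ x : F, ((if (derivative P).eval x ≠ 0 then (1 : ℝ) else 0) + (if (derivative P).eval x = 0 then (1 : ℝ) else 0)) = 1 := by
      intro x
      by_cases hx : (derivative P).eval x = 0
      · rw [if_neg (not_not.2 hx), if_pos hx, zero_add]
      · rw [if_pos hx, if_neg hx, add_zero]
    rw [sum_congr rfl fun x _ => this x, sum_const, card_univ, nsmul_eq_mul, mul_one]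
  have h4 : (∑ x : F, if (derivative P).eval x = 0 then (1 : ℝ) else 0) ≤ n := by
    rw [sum_boole]
    exact_mod_cast crit_le P h hn hn1 hp
  have h5 : 0 ≤ (∑ x : F, if (derivative P).eval x = 0 then (1 : ℝ) else 0) := by positivity
  have h6 : (∑ x : F, if (derivative P).eval x ≠ 0 then (1 : ℝ) else 0) - (Fintype.card F : ℝ) =
      -(∑ x : F, if (derivative P).eval x = 0 then (1 : ℝ) else 0) := by linarith
  rw [h6, abs_neg, abs_of_nonneg h5]
  exact h4

/-- **the mean number of simple roots** -/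
theorem sr_mean {n : ℕ} (G : F[X] × (Fin d → F[X])) (h1 : G.1.Monic) (h2 : G.1.natDegree = n) (h3 : ∀ j, (G.2 j).degree < n) (hn1 : 1 ≤ n)
    (j₀ : Fin d) (s : F) (hs : G.2 j₀ = C s) (hs0 : s ≠ 0) (hp : (Fintype.card F : ℕ) ≤ n ∨ ((n : ℕ) : F) ≠ 0) :
    |(∑ u : Fin d → F, ((sr (fam G u) : ℝ) - 1)) / (Fintype.card F : ℝ) ^ d| ≤ n / (Fintype.card F : ℝ) := by
  classical
  have hc : (0 : ℝ) < (Fintype.card F : ℝ) := by exact_mod_cast Fintype.card_pos
  have h4 := sum_shift G j₀ s hs hs0 (fun P => (sr P : ℝ) - 1)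
  have h5 : |∑ u : Fin d → F, ∑ t : F, ((sr (fam G u + C t) : ℝ) - 1)| ≤ (Fintype.card F : ℝ) ^ d * n := by
    refine (abs_sum_le_sum_abs _ _).trans ((sum_le_sum (g := fun _ => (n : ℝ)) fun u _ => ?_).trans (le_of_eq ?_))
    · obtain ⟨h6, h7⟩ := fam_monic G h1 h2 h3 u
      exact sr_shift _ h6 h7 hn1 hp
    · rw [sum_const, card_univ, Fintype.card_pi_const, nsmul_eq_mul]
      push_cast
      ring
  rw [abs_div, abs_of_pos (by positivity : (0 : ℝ) < (Fintype.card F : ℝ) ^ d), div_le_div_iff₀ (by positivity) hc]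
  have h6 : |∑ u : Fin d → F, ((sr (fam G u) : ℝ) - 1)| * (Fintype.card F : ℝ) =
      |∑ u : Fin d → F, ∑ t : F, ((sr (fam G u + C t) : ℝ) - 1)| := by
    rw [← h4, abs_mul, abs_of_pos hc, mul_comm]
  rw [h6]
  linarith

end

/-- the reduction of a system modulo `p` -/
noncomputable def redG {d : ℕ} (p : ℕ) (G : ℤ[X] × (Fin d → ℤ[X])) : (ZMod p)[X] × (Fin d → (ZMod p)[X]) :=
  (G.1.map (Int.castRingHom (ZMod p)), fun j => (G.2 j).map (Int.castRingHom (ZMod p)))

/-- the local function -/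
noncomputable def HH {d : ℕ} (G : ℤ[X] × (Fin d → ℤ[X])) (p : ℕ) (m : Fin d → ℕ) : ℝ :=
  if h : p.Prime then
    haveI : Fact p.Prime := ⟨h⟩
    (sr (fam (redG p G) (fun j => (m j : ZMod p))) : ℝ) - 1
  else 0

lemma HH_mod {d : ℕ} (G : ℤ[X] × (Fin d → ℤ[X])) (p : ℕ) (m : Fin d → ℕ) : HH G p m = HH G p (fun j => m j % p) := by
  unfold HH
  by_cases h : p.Prime
  · rw [dif_pos h, dif_pos h]
    simp only [ZMod.natCast_mod]
  · rw [dif_neg h, dif_neg h]

/-- the condition on the systems -/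
structure Sys (n : ℕ) {d : ℕ} (G : ℤ[X] × (Fin d → ℤ[X])) : Prop where
  monic : G.1.Monic
  deg : G.1.natDegree = n
  lt : ∀ j, (G.2 j).degree < n
  unit : ∃ j, IsUnit (G.2 j)

lemma redG_lt {n d : ℕ} {G : ℤ[X] × (Fin d → ℤ[X])} (h : Sys n G) (p : ℕ) (j : Fin d) : ((redG p G).2 j).degree < n :=
  lt_of_le_of_lt (degree_map_le) (h.lt j)

lemma HH_le {n d : ℕ} (hn : 1 ≤ n) {G : ℤ[X] × (Fin d → ℤ[X])} (h : Sys n G) (p : ℕ) (hp : p.Prime) (m : Fin d → ℕ) : |HH G p m| ≤ n := by
  have : Fact p.Prime := ⟨hp⟩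
  unfold HH
  rw [dif_pos hp]
  obtain ⟨h6, h7⟩ := fam_monic (n := n) (redG p G) (h.monic.map _) (by
    show (G.1.map _).natDegree = n
    rw [h.monic.natDegree_map, h.deg]) (redG_lt h p) (fun j => (m j : ZMod p))
  have h1 := sr_le _ h6 h7
  have h2 : ((sr (fam (redG p G) (fun j => (m j : ZMod p))) : ℕ) : ℝ) ≤ n := by exact_mod_cast h1
  have h3 : (1 : ℝ) ≤ n := by exact_mod_cast hn
  rw [abs_le]
  constructor
  · have : (0 : ℝ) ≤ (sr (fam (redG p G) (fun j => (m j : ZMod p))) : ℝ) := by positivity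
    linarith
  · linarith

lemma HH_mean {n d : ℕ} (hn : 1 ≤ n) {G : ℤ[X] × (Fin d → ℤ[X])} (h : Sys n G) (p : ℕ) (hp : p.Prime) : |mean d p (HH G p)| ≤ n / Real.sqrt p := by
  have : Fact p.Prime := ⟨hp⟩
  have h1 : HH G p = fun m => (fun u : Fin d → ZMod p => (sr (fam (redG p G) u) : ℝ) - 1) (fun j => (m j : ZMod p)) := by
    funext m
    unfold HH
    rw [dif_pos hp]
  obtain ⟨j₀, hj₀⟩ := h.unit
  obtain ⟨s, hs, hs2⟩ := Polynomial.isUnit_iff.1 hj₀
  rw [h1, mean_eq_av p (fun u : Fin d → ZMod p => (sr (fam (redG p G) u) : ℝ) - 1)]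
  unfold av
  have h2 := sr_mean (n := n) (redG p G) (h.monic.map _) (by
    show (G.1.map _).natDegree = n
    rw [h.monic.natDegree_map, h.deg]) (redG_lt h p) hn j₀ ((s : ℤ) : ZMod p) (by
    show (G.2 j₀).map _ = _
    rw [← hs2, map_C]
    rfl) (by
    have h3 : IsUnit ((Int.castRingHom (ZMod p)) s) := hs.map _
    exact h3.ne_zero) (by
    rw [ZMod.card]
    by_cases h4 : p ≤ n
    · exact Or.inl h4
    · right
      intro h5
      rw [ZMod.natCast_eq_zero_iff] at h5
      exact h4 (Nat.le_of_dvd (by omega) h5))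
  rw [ZMod.card] at h2
  refine h2.trans ?_
  have hp1 : (1 : ℝ) ≤ p := by exact_mod_cast hp.one_lt.le
  apply div_le_div_of_nonneg_left (by positivity) (Real.sqrt_pos.2 (by linarith))
  rw [Real.sqrt_le_left (by linarith)]
  nlinarith

end Pool.Agent.N842.TU
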